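import Pool.Agent.N969.P15.Defs

/-!
# The counting cocycle of the forms of discriminant `4` and level `15`
-/

set_option autoImplicit false

namespace Pool.Agent.N488.P15

open Pool.Agent.N969.P15

noncomputable section

/-- value of a form -/
def ev (q : ℤ × ℤ × ℤ) (x M : ℤ) : ℤ := q.1 * x ^ 2 + q.2.1 * x * M + q.2.2 * M ^ 2

/-- the set of forms -/
def inF (q : ℤ × ℤ × ℤ) : Prop :=
  q.2.1 ^ 2 - 4 * q.1 * q.2.2 = 4 ∧ (15 : ℤ) ∣ q.1 ∧ q.2.1 % 30 = 22

/-- substitution -/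
def act (a b c d : ℤ) (q : ℤ × ℤ × ℤ) : ℤ × ℤ × ℤ :=
  (q.1 * a ^ 2 + q.2.1 * a * c + q.2.2 * c ^ 2,
   2 * q.1 * a * b + q.2.1 * (a * d + b * c) + 2 * q.2.2 * c * d,
   q.1 * b ^ 2 + q.2.1 * b * d + q.2.2 * d ^ 2)

theorem ev_act (a b c d : ℤ) (q : ℤ × ℤ × ℤ) (x M : ℤ) :
    ev (act a b c d q) x M = ev q (a * x + b * M) (c * x + d * M) := by
  unfold ev act
  simp only
  ring

theorem act_inv {a b c d : ℤ} (h : a * d - b * c = 1) (q : ℤ × ℤ × ℤ) :
    act d (-b) (-c) a (act a b c d q) = q := by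
  obtain ⟨A, B, C⟩ := q
  unfold act
  simp only [Prod.mk.injEq]
  refine ⟨?_, ?_, ?_⟩
  · linear_combination A * (a * d - b * c + 1) * h
  · linear_combination B * (a * d - b * c + 1) * h
  · linear_combination C * (a * d - b * c + 1) * h

/-- the substitution as an equivalence -/
def eqv (a b c d : ℤ) (h : a * d - b * c = 1) : (ℤ × ℤ × ℤ) ≃ (ℤ × ℤ × ℤ) where
  toFun := act a b c d
  invFun := act d (-b) (-c) a
  left_inv := act_inv h
  right_inv := by
    intro q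
    have h' : d * a - (-b) * (-c) = 1 := by linear_combination h
    have := act_inv h' q
    simpa only [neg_neg] using this

theorem inF_act {a b c d : ℤ} (h : a * d - b * c = 1) (hc : (15 : ℤ) ∣ c) {q : ℤ × ℤ × ℤ}
    (hq : inF q) : inF (act a b c d q) := by
  obtain ⟨A, B, C⟩ := q
  obtain ⟨c1, rfl⟩ := hc
  obtain ⟨h1, ⟨A1, h2⟩, h3⟩ := hq
  simp only at h1 h2 h3
  refine ⟨?_, ?_, ?_⟩
  · unfold act
    simp only
    linear_combination (a * d - b * (15 * c1)) ^ 2 * h1 + 4 * (a * d - b * (15 * c1) + 1) * h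
  · unfold act
    simp only
    exact ⟨A1 * a ^ 2 + B * a * c1 + C * c1 ^ 2 * 15, by rw [h2]; ring⟩
  · unfold act
    simp only
    have h4 : 2 * A * a * b + B * (a * d + b * (15 * c1)) + 2 * C * (15 * c1) * d =
        B + 30 * (A1 * a * b + B * b * c1 + C * c1 * d) := by
      rw [h2]; linear_combination B * h
    rw [h4]
    omega

theorem inF_act_iff {a b c d : ℤ} (h : a * d - b * c = 1) (hc : (15 : ℤ) ∣ c) {q : ℤ × ℤ × ℤ} :
    inF (act a b c d q) ↔ inF q := by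
  refine ⟨fun hq => ?_, inF_act h hc⟩
  have h' : d * a - (-b) * (-c) = 1 := by linear_combination h
  have h1 := inF_act h' (hc.neg_right) hq
  rwa [act_inv h] at h1

/-- the sign of the imprimitive forms -/
def wt (q : ℤ × ℤ × ℤ) : ℤ := if (2 : ℤ) ∣ q.1 ∧ (2 : ℤ) ∣ q.2.2 then -1 else 1

theorem cQ_inF {q : ℤ × ℤ × ℤ} (hq : inF q) : cQ q = wt q := by
  unfold cQ wt
  rw [if_pos hq.2.2, one_mul]

theorem wt_act {a b c d : ℤ} (h : a * d - b * c = 1) {q : ℤ × ℤ × ℤ} (hq : (2 : ℤ) ∣ q.2.1) :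
    wt (act a b c d q) = wt q := by
  have key : ∀ (a b c d : ℤ) (_ : a * d - b * c = 1) (q : ℤ × ℤ × ℤ) (_ : (2 : ℤ) ∣ q.2.1),
      ((2 : ℤ) ∣ q.1 ∧ (2 : ℤ) ∣ q.2.2) →
      ((2 : ℤ) ∣ (act a b c d q).1 ∧ (2 : ℤ) ∣ (act a b c d q).2.2) := by
    rintro a b c d h ⟨A, B, C⟩ hB ⟨hA, hC⟩
    unfold act
    simp only at hA hB hC ⊢
    exact ⟨dvd_add (dvd_add (hA.mul_right _) ((hB.mul_right _).mul_right _)) (hC.mul_right _),
      dvd_add (dvd_add (hA.mul_right _) ((hB.mul_right _).mul_right _)) (hC.mul_right _)⟩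
  have hB' : (2 : ℤ) ∣ (act a b c d q).2.1 := by
    obtain ⟨A, B, C⟩ := q
    obtain ⟨B1, rfl⟩ := hq
    unfold act
    simp only
    exact ⟨A * a * b + B1 * (a * d + b * c) + C * c * d, by ring⟩
  have h' : d * a - (-b) * (-c) = 1 := by linear_combination h
  have hiff : ((2 : ℤ) ∣ (act a b c d q).1 ∧ (2 : ℤ) ∣ (act a b c d q).2.2) ↔
      ((2 : ℤ) ∣ q.1 ∧ (2 : ℤ) ∣ q.2.2) := by
    refine ⟨fun h1 => ?_, key a b c d h q hq⟩
    have h2 := key d (-b) (-c) a h' _ hB' h1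
    rwa [act_inv h] at h2
  unfold wt
  by_cases h1 : (2 : ℤ) ∣ q.1 ∧ (2 : ℤ) ∣ q.2.2
  · rw [if_pos h1, if_pos (hiff.2 h1)]
  · rw [if_neg h1, if_neg (fun h2 => h1 (hiff.1 h2))]

theorem inF_even {q : ℤ × ℤ × ℤ} (hq : inF q) : (2 : ℤ) ∣ q.2.1 := by
  have := hq.2.2
  omega

theorem cQ_act {a b c d : ℤ} (h : a * d - b * c = 1) (hc : (15 : ℤ) ∣ c) {q : ℤ × ℤ × ℤ}
    (hq : inF q) : cQ (act a b c d q) = cQ q := by
  rw [cQ_inF hq, cQ_inF (inF_act h hc hq), wt_act h (inF_even hq)]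

open Classical in
/-- the difference of the signs at two points -/
def T (x M y N : ℤ) (q : ℤ × ℤ × ℤ) : ℤ :=
  if inF q then cQ q * (Int.sign (ev q x M) - Int.sign (ev q y N)) else 0

/-- the counting function -/
def G (x M : ℤ) : ℤ := ∑ᶠ q, T x M 1 0 q

theorem T_act {a b c d : ℤ} (h : a * d - b * c = 1) (hc : (15 : ℤ) ∣ c) (x M y N : ℤ)
    (q : ℤ × ℤ × ℤ) : T (a * x + b * M) (c * x + d * M) (a * y + b * N) (c * y + d * N) q =
      T x M y N (act a b c d q) := by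
  unfold T
  by_cases hq : inF q
  · rw [if_pos hq, if_pos (inF_act h hc hq), cQ_act h hc hq, ev_act, ev_act]
  · rw [if_neg hq, if_neg (fun h1 => hq ((inF_act_iff h hc).1 h1))]

theorem T_add (x M y N z L : ℤ) (q : ℤ × ℤ × ℤ) : T x M z L q = T x M y N q + T y N z L q := by
  unfold T
  split_ifs
  · ring
  · ring

/-- no form vanishes at the point -/
def NV (x M : ℤ) : Prop := ∀ q, inF q → ev q x M ≠ 0

theorem ev10 (q : ℤ × ℤ × ℤ) : ev q 1 0 = q.1 := by
  unfold ev; ring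

theorem A_ne {q : ℤ × ℤ × ℤ} (hq : inF q) : q.1 ≠ 0 := by
  intro h0
  obtain ⟨h1, -, h3⟩ := hq
  rw [h0] at h1
  have h4 : (q.2.1 - 2) * (q.2.1 + 2) = 0 := by linear_combination h1
  rcases mul_eq_zero.1 h4 with h5 | h5 <;> omega

theorem C_ne {q : ℤ × ℤ × ℤ} (hq : inF q) : q.2.2 ≠ 0 := by
  intro h0
  obtain ⟨h1, -, h3⟩ := hq
  rw [h0] at h1
  have h4 : (q.2.1 - 2) * (q.2.1 + 2) = 0 := by linear_combination h1
  rcases mul_eq_zero.1 h4 with h5 | h5 <;> omega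

theorem NV_inf {a b c d : ℤ} (h : a * d - b * c = 1) (hc : (15 : ℤ) ∣ c) : NV a c := by
  intro q hq
  have h1 := A_ne (inF_act h hc hq)
  have h2 : (act a b c d q).1 = ev q a c := by
    unfold act ev
    ring
  rwa [h2] at h1

theorem NV_zero : NV 0 1 := by
  intro q hq
  have h1 := C_ne hq
  have h2 : ev q 0 1 = q.2.2 := by unfold ev; ring
  rwa [h2]

theorem NV_cop {x M : ℤ} (h : IsCoprime (15 * x) M) : NV x M := by
  intro q hq h0
  obtain ⟨h1, ⟨A1, h2⟩, h3⟩ := hq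
  obtain ⟨B1, hB⟩ : ∃ B1, q.2.1 = 30 * B1 + 22 := ⟨q.2.1 / 30, by omega⟩
  have h4 : (2 * q.1 * x + q.2.1 * M - 2 * M) * (2 * q.1 * x + q.2.1 * M + 2 * M) = 0 := by
    unfold ev at h0
    linear_combination 4 * q.1 * h0 + M ^ 2 * h1
  rw [h2, hB] at h4
  have n3 : ¬ (3 : ℤ) ∣ M := by
    intro h5
    have h6 : (3 : ℤ) ∣ 15 * x := ⟨5 * x, by ring⟩
    have h7 := h.isUnit_of_dvd' h6 h5
    rw [Int.isUnit_iff] at h7
    omega
  have n5 : ¬ (5 : ℤ) ∣ M := by
    intro h5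
    have h6 : (5 : ℤ) ∣ 15 * x := ⟨3 * x, by ring⟩
    have h7 := h.isUnit_of_dvd' h6 h5
    rw [Int.isUnit_iff] at h7
    omega
  rcases mul_eq_zero.1 h4 with h5 | h5
  · -- `30 (…) + 20 M = 0`
    have h6 : (3 : ℤ) ∣ 2 * M := ⟨-(A1 * x + B1 * M), by linarith⟩
    have h7 : IsCoprime (3 : ℤ) 2 := ⟨1, -1, by norm_num⟩
    exact n3 (h7.dvd_of_dvd_mul_left h6)
  · -- `30 (…) + 24 M = 0`
    have h6 : (5 : ℤ) ∣ 4 * M := ⟨-(A1 * x + B1 * M), by linarith⟩
    have h7 : IsCoprime (5 : ℤ) 4 := ⟨1, -1, by norm_num⟩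
    exact n5 (h7.dvd_of_dvd_mul_left h6)

theorem key {q : ℤ × ℤ × ℤ} (h : q.2.1 ^ 2 - 4 * q.1 * q.2.2 = 4) (x M : ℤ) :
    4 * (q.1 * ev q x M) = (2 * q.1 * x + q.2.1 * M) ^ 2 - 4 * M ^ 2 := by
  unfold ev
  linear_combination -(M ^ 2) * h

theorem T_ne {x M : ℤ} (hNV : NV x M) {q : ℤ × ℤ × ℤ} (h : T x M 1 0 q ≠ 0) :
    inF q ∧ q.1 * ev q x M < 0 := by
  unfold T at h
  by_cases hq : inF q
  · refine ⟨hq, ?_⟩
    rw [if_pos hq, ev10] at h
    have h1 : Int.sign (ev q x M) ≠ Int.sign q.1 := by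
      intro h2
      apply h
      rw [h2, sub_self, mul_zero]
    have h2 := A_ne hq
    have h3 := hNV q hq
    rcases lt_or_gt_of_ne h2 with h4 | h4
    · rcases lt_or_gt_of_ne h3 with h5 | h5
      · exact absurd (by rw [Int.sign_eq_neg_one_of_neg h4, Int.sign_eq_neg_one_of_neg h5]) h1
      · exact mul_neg_of_neg_of_pos h4 h5
    · rcases lt_or_gt_of_ne h3 with h5 | h5
      · exact mul_neg_of_pos_of_neg h4 h5
      · exact absurd (by rw [Int.sign_eq_one_of_pos h4, Int.sign_eq_one_of_pos h5]) h1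
  · rw [if_neg hq] at h
    exact absurd rfl h

theorem bound {x M : ℤ} {q : ℤ × ℤ × ℤ} (hd : q.2.1 ^ 2 - 4 * q.1 * q.2.2 = 4)
    (h : q.1 * ev q x M < 0) :
    |q.1| ≤ M ^ 2 ∧ |2 * q.1 * x + q.2.1 * M| < 2 * |M| := by
  have h1 := key hd x M
  have h2 : (2 * q.1 * x + q.2.1 * M) ^ 2 < (2 * M) ^ 2 := by nlinarith
  have h3 := sq_lt_sq.1 h2
  rw [abs_mul] at h3
  refine ⟨?_, by simpa using h3⟩
  have h4 : ev q x M ≠ 0 := by
    intro h5; rw [h5, mul_zero] at h; exact lt_irrefl _ h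
  have h5 : 1 ≤ |ev q x M| := Int.one_le_abs h4
  have h6 : |q.1| * |ev q x M| = -(q.1 * ev q x M) := by
    rw [← abs_mul, abs_of_neg h]
  have h7 : |q.1| ≤ |q.1| * |ev q x M| := le_mul_of_one_le_right (abs_nonneg _) h5
  nlinarith [sq_nonneg (2 * q.1 * x + q.2.1 * M)]

theorem fin_T {x M : ℤ} (hNV : NV x M) : (Function.support (T x M 1 0)).Finite := by
  rcases eq_or_ne M 0 with rfl | hM
  · have : Function.support (T x 0 1 0) = ∅ := by
      rw [Set.eq_empty_iff_forall_notMem]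
      intro q hq
      have h1 := T_ne hNV hq
      have h2 := (bound h1.1.1 h1.2).2
      rw [abs_zero, mul_zero] at h2
      exact absurd (abs_nonneg _) (not_le.2 h2)
    rw [this]
    exact Set.finite_empty
  · set K : ℤ := M ^ 2 with hK
    set L : ℤ := 2 * |M| + 2 * K * |x| with hL
    set R : ℤ := L ^ 2 + 4 with hR
    refine ((Set.finite_Icc (-K) K).prod ((Set.finite_Icc (-L) L).prod
      (Set.finite_Icc (-R) R))).subset ?_
    intro q hq
    have h1 := T_ne hNV hq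
    obtain ⟨h2, h3⟩ := bound h1.1.1 h1.2
    have hA : |q.1| ≤ K := h2
    have hM1 : 1 ≤ |M| := Int.one_le_abs hM
    have hB : |q.2.1| ≤ L := by
      have h4 : |q.2.1 * M| ≤ |2 * q.1 * x + q.2.1 * M| + |2 * q.1 * x| := by
        have h5 : q.2.1 * M = (2 * q.1 * x + q.2.1 * M) - 2 * q.1 * x := by ring
        calc |q.2.1 * M| = |(2 * q.1 * x + q.2.1 * M) - 2 * q.1 * x| := by rw [← h5]
          _ ≤ _ := abs_sub _ _
      have h6 : |2 * q.1 * x| ≤ 2 * K * |x| := by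
        rw [abs_mul, abs_mul]
        have : |(2:ℤ)| = 2 := rfl
        rw [this]
        have := abs_nonneg x
        nlinarith
      have h7 : |q.2.1| ≤ |q.2.1 * M| := by
        rw [abs_mul]
        exact le_mul_of_one_le_right (abs_nonneg _) hM1
      rw [hL]
      linarith
    have hC : |q.2.2| ≤ R := by
      have h4 : 4 * (q.1 * q.2.2) = q.2.1 ^ 2 - 4 := by
        have := h1.1.1
        linarith
      have h5 : 4 * (|q.1| * |q.2.2|) ≤ q.2.1 ^ 2 + 4 := by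
        rw [← abs_mul]
        rcases abs_cases (q.1 * q.2.2) with ⟨h6, _⟩ | ⟨h6, _⟩ <;> rw [h6] <;>
          nlinarith [sq_nonneg q.2.1]
      have h6 : q.2.1 ^ 2 ≤ L ^ 2 := by
        rw [← sq_abs q.2.1]
        exact pow_le_pow_left₀ (abs_nonneg _) hB 2
      have h7 : 1 ≤ |q.1| := Int.one_le_abs (A_ne h1.1)
      have h8 : |q.2.2| ≤ |q.1| * |q.2.2| := le_mul_of_one_le_left (abs_nonneg _) h7
      have h9 := abs_nonneg q.2.2
      rw [hR]
      linarith
    refine ⟨?_, ?_, ?_⟩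
    · exact abs_le.1 hA
    · exact abs_le.1 hB
    · exact abs_le.1 hC

theorem G_coc {a b c d : ℤ} (h : a * d - b * c = 1) (hc : (15 : ℤ) ∣ c) {x M : ℤ}
    (hNV : NV x M) : G (a * x + b * M) (c * x + d * M) = G x M + G a c := by
  unfold G
  have h1 : ∀ q, T (a * x + b * M) (c * x + d * M) 1 0 q =
      T x M 1 0 (eqv a b c d h q) + T a c 1 0 q := by
    intro q
    rw [T_add _ _ a c 1 0 q]
    congr 1
    have h2 := T_act h hc x M 1 0 q
    simp only [mul_one, mul_zero, add_zero] at h2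
    exact h2
  have hf1 : (Function.support fun q => T x M 1 0 (eqv a b c d h q)).Finite := by
    have := (fin_T hNV).preimage ((eqv a b c d h).injective.injOn)
    exact this
  rw [finsum_congr h1, finsum_add_distrib hf1 (fin_T (NV_inf h hc)),
    finsum_comp_equiv (eqv a b c d h) (f := T x M 1 0)]

theorem G_zero : G 0 1 = 0 := by
  unfold G
  have : ∀ q, T 0 1 1 0 q = 0 := by
    intro q
    by_contra h
    have h1 := T_ne NV_zero h
    have h2 := (bound h1.1.1 h1.2).2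
    have h3 := h1.1.2.2
    rw [mul_zero, zero_add, mul_one, abs_one, mul_one, abs_lt] at h2
    omega
  rw [finsum_congr this, finsum_zero]

theorem G_aff {a b c d : ℤ} (h : a * d - b * c = 1) (hc : (15 : ℤ) ∣ c) {x M : ℤ}
    (hNV : NV x M) : G (a * x + b * M) (c * x + d * M) = G x M + G b d := by
  have h1 := G_coc h hc (x := 0) (M := 1) NV_zero
  simp only [mul_zero, mul_one, zero_add] at h1
  rw [G_coc h hc hNV, h1, G_zero, zero_add]

theorem G_add (x M m : ℤ) : G (x + m * M) M = G x M := by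
  unfold G
  have hdet : (1 : ℤ) * 1 - m * 0 = 1 := by ring
  have h1 : ∀ q, T (x + m * M) M 1 0 q = T x M 1 0 (eqv 1 m 0 1 hdet q) := by
    intro q
    have h2 := T_act hdet (dvd_zero _) x M 1 0 q
    simp only [mul_one, mul_zero, add_zero, one_mul, zero_mul, zero_add] at h2
    exact h2
  rw [finsum_congr h1, finsum_comp_equiv (eqv 1 m 0 1 hdet) (f := T x M 1 0)]

theorem G_one (x : ℤ) : G x 1 = 0 := by
  have h := G_add 0 1 x
  rw [zero_add, mul_one] at h
  rw [h, G_zero]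

theorem G_neg_neg (x M : ℤ) : G (-x) (-M) = G x M := by
  unfold G
  apply finsum_congr
  intro q
  have h : ev q (-x) (-M) = ev q x M := by unfold ev; ring
  unfold T
  rw [h]

theorem wt_neg (A B B' C : ℤ) : wt (-A, B', -C) = wt (A, B, C) := by
  unfold wt
  simp only [dvd_neg]

/-- the reflection -/
def refl : (ℤ × ℤ × ℤ) ≃ (ℤ × ℤ × ℤ) where
  toFun q := (-q.1, q.2.1, -q.2.2)
  invFun q := (-q.1, q.2.1, -q.2.2)
  left_inv q := by simp
  right_inv q := by simp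

theorem G_neg (x M : ℤ) : G (-x) M = -G x M := by
  unfold G
  have h1 : ∀ q, T (-x) M 1 0 q = -T x M 1 0 (refl q) := by
    intro q
    obtain ⟨A, B, C⟩ := q
    have hr : refl (A, B, C) = (-A, B, -C) := rfl
    rw [hr]
    unfold T
    have hF : inF (-A, B, -C) ↔ inF (A, B, C) := by
      unfold inF
      simp only
      constructor
      · rintro ⟨h1, h2, h3⟩
        exact ⟨by linear_combination h1, (dvd_neg).1 h2, h3⟩
      · rintro ⟨h1, h2, h3⟩
        exact ⟨by linear_combination h1, (dvd_neg).2 h2, h3⟩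
    have e1 : ev (-A, B, -C) x M = - ev (A, B, C) (-x) M := by
      unfold ev; simp only; ring
    have e2 : ev (-A, B, -C) 1 0 = - ev (A, B, C) 1 0 := by
      unfold ev; simp only; ring
    by_cases hq : inF (A, B, C)
    · rw [if_pos hq, if_pos (hF.2 hq), cQ_inF hq, cQ_inF (hF.2 hq), wt_neg A B B C, e1, e2,
        Int.sign_neg, Int.sign_neg]
      ring
    · rw [if_neg hq, if_neg (fun h => hq (hF.1 h)), neg_zero]
  rw [finsum_congr h1, finsum_neg_distrib, finsum_comp_equiv refl (f := T x M 1 0)]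

open Classical in
/-- the part with `B = 22` -/
def f22 (x M : ℤ) (q : ℤ × ℤ × ℤ) : ℤ :=
  if inF q ∧ 0 < q.1 ∧ ev q x M < 0 then cQ q else 0

open Classical in
/-- the part with `B = 8` -/
def f8 (x M : ℤ) (q : ℤ × ℤ × ℤ) : ℤ :=
  if inF (-q) ∧ 0 < q.1 ∧ ev q x M < 0 then cQ q else 0

theorem ev_neg (q : ℤ × ℤ × ℤ) (x M : ℤ) : ev (-q) x M = - ev q x M := by
  unfold ev
  simp only [Prod.fst_neg, Prod.snd_neg]
  ring

theorem cQ_neg' {q : ℤ × ℤ × ℤ} (hq : inF q) : cQ (-q) = -cQ q := by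
  rw [cQ_inF hq]
  obtain ⟨A, B, C⟩ := q
  have h3 := hq.2.2
  simp only at h3
  have h4 : ¬ (-B) % 30 = 22 := by omega
  unfold cQ
  simp only [Prod.fst_neg, Prod.snd_neg]
  rw [if_neg h4]
  have h5 := wt_neg A B (-B) C
  unfold wt at h5 ⊢
  simp only at h5 ⊢
  rw [h5]
  ring

theorem T_split {x M : ℤ} (hNV : NV x M) (q : ℤ × ℤ × ℤ) :
    T x M 1 0 q = (-2) * f22 x M q + (-2) * f8 x M (-q) := by
  unfold T f22 f8
  rw [neg_neg, ev_neg, ev10]
  simp only [Prod.fst_neg]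
  by_cases hq : inF q
  · rw [if_pos hq, cQ_neg' hq]
    have h2 := A_ne hq
    have h3 := hNV q hq
    rcases lt_or_gt_of_ne h2 with h4 | h4
    · have n1 : ¬ (inF q ∧ 0 < q.1 ∧ ev q x M < 0) := fun h => by linarith [h.2.1]
      rw [if_neg n1, Int.sign_eq_neg_one_of_neg h4]
      rcases lt_or_gt_of_ne h3 with h5 | h5
      · have n2 : ¬ (inF q ∧ 0 < -q.1 ∧ -ev q x M < 0) := fun h => by linarith [h.2.2]
        rw [if_neg n2, Int.sign_eq_neg_one_of_neg h5]
        ring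
      · have n2 : (inF q ∧ 0 < -q.1 ∧ -ev q x M < 0) := ⟨hq, by linarith, by linarith⟩
        rw [if_pos n2, Int.sign_eq_one_of_pos h5]
        ring
    · have n1 : ¬ (inF q ∧ 0 < -q.1 ∧ -ev q x M < 0) := fun h => by linarith [h.2.1]
      rw [if_neg n1, Int.sign_eq_one_of_pos h4]
      rcases lt_or_gt_of_ne h3 with h5 | h5
      · have n2 : (inF q ∧ 0 < q.1 ∧ ev q x M < 0) := ⟨hq, h4, h5⟩
        rw [if_pos n2, Int.sign_eq_neg_one_of_neg h5]
        ring
      · have n2 : ¬ (inF q ∧ 0 < q.1 ∧ ev q x M < 0) := fun h => by linarith [h.2.2]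
        rw [if_neg n2, Int.sign_eq_one_of_pos h5]
        ring
  · have n1 : ¬ (inF q ∧ 0 < q.1 ∧ ev q x M < 0) := fun h => hq h.1
    have n2 : ¬ (inF q ∧ 0 < -q.1 ∧ -ev q x M < 0) := fun h => hq h.1
    rw [if_neg hq, if_neg n1, if_neg n2]
    ring

theorem fin22 {x M : ℤ} (hNV : NV x M) : (Function.support (f22 x M)).Finite := by
  refine (fin_T hNV).subset ?_
  intro q hq
  have h1 : f22 x M q ≠ 0 := hq
  have h2 : f8 x M (-q) = 0 := by
    by_contra h3
    have h4 : inF (- -q) ∧ 0 < (-q).1 ∧ ev (-q) x M < 0 := by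
      unfold f8 at h3
      by_contra h5
      rw [if_neg h5] at h3
      exact h3 rfl
    have h5 : inF q ∧ 0 < q.1 ∧ ev q x M < 0 := by
      unfold f22 at h1
      by_contra h6
      rw [if_neg h6] at h1
      exact h1 rfl
    have h7 := h4.2.1
    rw [Prod.fst_neg] at h7
    linarith [h5.2.1]
  rw [Function.mem_support, T_split hNV, h2]
  intro h3
  apply h1
  linarith

theorem fin8' {x M : ℤ} (hNV : NV x M) : (Function.support (fun q => f8 x M (-q))).Finite := by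
  refine (fin_T hNV).subset ?_
  intro q hq
  have h1 : f8 x M (-q) ≠ 0 := hq
  have h2 : f22 x M q = 0 := by
    by_contra h3
    have h4 : inF (- -q) ∧ 0 < (-q).1 ∧ ev (-q) x M < 0 := by
      unfold f8 at h1
      by_contra h5
      rw [if_neg h5] at h1
      exact h1 rfl
    have h5 : inF q ∧ 0 < q.1 ∧ ev q x M < 0 := by
      unfold f22 at h3
      by_contra h6
      rw [if_neg h6] at h3
      exact h3 rfl
    have h7 := h4.2.1
    rw [Prod.fst_neg] at h7
    linarith [h5.2.1]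
  rw [Function.mem_support, T_split hNV, h2]
  intro h3
  apply h1
  linarith

theorem fin8 {x M : ℤ} (hNV : NV x M) : (Function.support (f8 x M)).Finite := by
  have h := (fin8' hNV).preimage ((neg_injective (G := ℤ × ℤ × ℤ)).injOn)
  refine h.subset ?_
  intro q hq
  show f8 x M (- -q) ≠ 0
  rw [neg_neg]
  exact hq

theorem Fm_split (q : ℤ × ℤ × ℤ) : Fm q ↔ (inF q ∨ inF (-q)) := by
  obtain ⟨A, B, C⟩ := q
  unfold Fm inF
  simp only [Prod.fst_neg, Prod.snd_neg]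
  constructor
  · rintro ⟨h1, h2, h3 | h3⟩
    · left
      exact ⟨h1, h2, h3⟩
    · right
      exact ⟨by linear_combination h1, (dvd_neg).2 h2, by omega⟩
  · rintro (⟨h1, h2, h3⟩ | ⟨h1, h2, h3⟩)
    · exact ⟨h1, h2, Or.inl h3⟩
    · exact ⟨by linear_combination h1, (dvd_neg).1 h2, Or.inr (by omega)⟩

theorem G_eq {x M : ℤ} (hNV : NV x M) : G x M = -2 * Fp x M := by
  classical
  have h1 : Fp x M = ∑ᶠ q, (f22 x M q + f8 x M q) := by
    unfold Fp
    apply finsum_congr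
    intro q
    unfold f22 f8
    have hex : ¬ (inF q ∧ inF (-q)) := by
      rintro ⟨⟨_, _, h1⟩, ⟨_, _, h2⟩⟩
      rw [Prod.snd_neg, Prod.fst_neg] at h2
      omega
    have he : ev q x M = q.1 * x ^ 2 + q.2.1 * x * M + q.2.2 * M ^ 2 := rfl
    rw [← he]
    by_cases hs : 0 < q.1 ∧ ev q x M < 0
    · by_cases h3 : inF q
      · have h4 : ¬ inF (-q) := fun h => hex ⟨h3, h⟩
        rw [if_pos ⟨(Fm_split q).2 (Or.inl h3), hs⟩, if_pos ⟨h3, hs⟩, if_neg (fun h => h4 h.1),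
          add_zero]
      · by_cases h4 : inF (-q)
        · rw [if_pos ⟨(Fm_split q).2 (Or.inr h4), hs⟩, if_neg (fun h => h3 h.1), if_pos ⟨h4, hs⟩,
            zero_add]
        · have h5 : ¬ Fm q := fun h => ((Fm_split q).1 h).elim h3 h4
          rw [if_neg (fun h => h5 h.1), if_neg (fun h => h3 h.1), if_neg (fun h => h4 h.1),
            add_zero]
    · rw [if_neg (fun h => hs h.2), if_neg (fun h => hs h.2), if_neg (fun h => hs h.2), add_zero]
  have h2 : ∑ᶠ q, f8 x M (-q) = ∑ᶠ q, f8 x M q :=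
    finsum_comp_equiv (Equiv.neg (ℤ × ℤ × ℤ)) (f := f8 x M)
  have h3 : G x M = (-2) * (∑ᶠ q, f22 x M q) + (-2) * (∑ᶠ q, f8 x M (-q)) := by
    unfold G
    rw [finsum_congr (T_split hNV), finsum_add_distrib, mul_finsum, mul_finsum]
    · exact (fin22 hNV).subset (Function.support_mul_subset_right _ _)
    · exact (fin8' hNV).subset (Function.support_mul_subset_right _ _)
  rw [h1, h3, h2, finsum_add_distrib (fin22 hNV) (fin8 hNV)]
  ring

/-! ### the properties of the counting function `Fp` -/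

theorem Fp_add {x M : ℤ} (h : IsCoprime (15 * x) M) (m : ℤ) : Fp (x + m * M) M = Fp x M := by
  have h2 : IsCoprime (15 * (x + m * M)) M := by
    have : 15 * (x + m * M) = 15 * x + (15 * m) * M := by ring
    rw [this]
    exact (IsCoprime.add_mul_right_left_iff).2 h
  have h3 := G_add x M m
  rw [G_eq (NV_cop h), G_eq (NV_cop h2)] at h3
  linarith

theorem Fp_neg {x M : ℤ} (h : IsCoprime (15 * x) M) : Fp (-x) M = -Fp x M := by
  have h2 : IsCoprime (15 * (-x)) M := by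
    rw [mul_neg]; exact h.neg_left
  have h3 := G_neg x M
  rw [G_eq (NV_cop h), G_eq (NV_cop h2)] at h3
  linarith

theorem Fp_neg_neg {x M : ℤ} (h : IsCoprime (15 * x) M) : Fp (-x) (-M) = Fp x M := by
  have h2 : IsCoprime (15 * (-x)) (-M) := by
    rw [mul_neg]; exact h.neg_neg
  have h3 := G_neg_neg x M
  rw [G_eq (NV_cop h), G_eq (NV_cop h2)] at h3
  linarith

theorem Fp_one (x : ℤ) : Fp x 1 = 0 := by
  have h3 := G_one x
  rw [G_eq (NV_cop isCoprime_one_right)] at h3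
  linarith

/-- coprimality of the image -/
theorem cop_image {A B c D : ℤ} (hdet : A * D - B * (15 * c) = 1) {y M : ℤ}
    (hy : IsCoprime (15 * y) M) :
    IsCoprime (15 * (A * y + B * M)) (15 * c * y + D * M) := by
  obtain ⟨u, v, huv⟩ := hy
  have h14 : IsCoprime (15 : ℤ) (15 * (c : ℤ) * y + D * M) := by
    have h1 : IsCoprime (15 : ℤ) (D * M) := by
      refine IsCoprime.mul_right ⟨-(B * c), A, by linear_combination hdet⟩
        ⟨u * y, v, by linear_combination huv⟩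
    have h2 : 15 * (c : ℤ) * y + D * M = D * M + 15 * (c * y) := by ring
    rw [h2]
    exact (IsCoprime.add_mul_left_right_iff).2 h1
  refine IsCoprime.mul_left h14 ?_
  refine ⟨u * 15 * D - v * (15 * c), -(u * 15 * B) + v * A, ?_⟩
  linear_combination (u * 15 * y + v * M) * hdet + huv

theorem cop_BD {A B c D : ℤ} (hdet : A * D - B * (15 * c) = 1) : IsCoprime (15 * B) D :=
  ⟨-c, A, by linear_combination hdet⟩

theorem Fp_aff {A B c D : ℤ} (hdet : A * D - B * (15 * c) = 1) {x M : ℤ}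
    (h : IsCoprime (15 * x) M) :
    Fp (A * x + B * M) (15 * c * x + D * M) = Fp x M + Fp B D := by
  have h3 := G_aff (a := A) (b := B) (c := 15 * c) (d := D) hdet ⟨c, rfl⟩ (NV_cop h)
  rw [G_eq (NV_cop h), G_eq (NV_cop (cop_image hdet h)), G_eq (NV_cop (cop_BD hdet))] at h3
  linarith

theorem bound' {x M : ℤ} (hM : 0 < M) {A B C : ℤ} (h : Fm (A, B, C) ∧ 0 < A ∧
    A * x ^ 2 + B * x * M + C * M ^ 2 < 0) :
    A ≤ M ^ 2 ∧ -(2 * M) < 2 * A * x + B * M ∧ 2 * A * x + B * M < 2 * M := by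
  obtain ⟨h1, h2, h3⟩ := h
  have h4 : A * ev (A, B, C) x M < 0 := mul_neg_of_pos_of_neg h2 h3
  obtain ⟨h5, h6⟩ := bound (q := (A, B, C)) h1.1 h4
  simp only at h5 h6
  rw [abs_of_pos h2] at h5
  rw [abs_of_pos hM, abs_lt] at h6
  exact ⟨h5, h6.1, h6.2⟩

theorem Fp12 : Fp 1 2 = 0 := by
  have h1 := Fp_neg (x := 1) (M := 2) ⟨1, -7, by norm_num⟩
  have h2 := Fp_add (x := -1) (M := 2) ⟨-1, -7, by norm_num⟩ 1
  have e : (-1 : ℤ) + 1 * 2 = 1 := by norm_num
  rw [e] at h2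
  linarith

theorem Fp14 : Fp 1 4 = 1 := by
  classical
  have hs : Function.support (fun q : ℤ × ℤ × ℤ =>
      if Fm q ∧ 0 < q.1 ∧ q.1 * 1 ^ 2 + q.2.1 * 1 * 4 + q.2.2 * 4 ^ 2 < 0 then cQ q else 0) ⊆
      (({(15, -8, 1)} : Finset (ℤ × ℤ × ℤ)) : Set (ℤ × ℤ × ℤ)) := by
    rintro ⟨A, B, C⟩ hq
    have h : Fm (A, B, C) ∧ 0 < A ∧ A * 1 ^ 2 + B * 1 * 4 + C * 4 ^ 2 < 0 := by
      by_contra h
      exact hq (if_neg h)
    obtain ⟨h1, h2, h3⟩ := bound' (by norm_num) h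
    obtain ⟨⟨h4, ⟨k, h5⟩, h6⟩, h7, h8⟩ := h
    simp only at h4 h5 h6
    subst h5
    have hk : k = 1 := by omega
    subst hk
    have hB : B = -8 := by omega
    subst hB
    have hC : C = 1 := by omega
    subst hC
    simp
  unfold Fp
  rw [finsum_eq_sum_of_support_subset _ hs, Finset.sum_singleton, if_pos]
  · rfl
  · refine ⟨⟨by norm_num, by norm_num, by norm_num⟩, by norm_num, by norm_num⟩

theorem Fp17 : Fp 1 7 = 0 := by
  classical
  unfold Fp
  refine finsum_eq_zero_of_forall_eq_zero ?_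
  rintro ⟨A, B, C⟩
  refine if_neg ?_
  intro h
  obtain ⟨h1, h2, h3⟩ := bound' (by norm_num) h
  obtain ⟨⟨h4, ⟨k, h5⟩, h6⟩, h7, h8⟩ := h
  simp only at h4 h5 h6
  subst h5
  have hk : k = 1 ∨ k = 2 ∨ k = 3 := by omega
  rcases hk with rfl | rfl | rfl
  · omega
  · have hB : B = -8 := by omega
    subst hB
    omega
  · omega

theorem Fp411 : Fp 4 11 = 1 := by
  classical
  have hs : Function.support (fun q : ℤ × ℤ × ℤ =>
      if Fm q ∧ 0 < q.1 ∧ q.1 * 4 ^ 2 + q.2.1 * 4 * 11 + q.2.2 * 11 ^ 2 < 0 then cQ q else 0) ⊆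
      (({(30, -22, 4)} : Finset (ℤ × ℤ × ℤ)) : Set (ℤ × ℤ × ℤ)) := by
    rintro ⟨A, B, C⟩ hq
    have h : Fm (A, B, C) ∧ 0 < A ∧ A * 4 ^ 2 + B * 4 * 11 + C * 11 ^ 2 < 0 := by
      by_contra h
      exact hq (if_neg h)
    obtain ⟨h1, h2, h3⟩ := bound' (by norm_num) h
    obtain ⟨⟨h4, ⟨k, h5⟩, h6⟩, h7, h8⟩ := h
    simp only at h4 h5 h6
    subst h5
    have hk1 : 1 ≤ k := by omega
    have hk2 : k ≤ 8 := by omega
    have hk : k = 2 := by
      obtain ⟨j, hj⟩ : ∃ j, B = 30 * j + 22 ∨ B = 30 * j + 8 := ⟨B / 30, by omega⟩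
      clear h4 h8 hq
      interval_cases k <;> first | rfl | (exfalso; omega)
    subst hk
    have hB : B = -22 := by omega
    subst hB
    have hC : C = 4 := by omega
    subst hC
    simp
  unfold Fp
  rw [finsum_eq_sum_of_support_subset _ hs, Finset.sum_singleton, if_pos]
  · rfl
  · refine ⟨⟨by norm_num, by norm_num, by norm_num⟩, by norm_num, by norm_num⟩

end

end Pool.Agent.N488.P15
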